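import Mathlib
import Pool.Agent.H.MP_051ecf_co.A

set_option autoImplicit false
open Finset

namespace Pool.Agent.Results.MP_051ecf_co.NoSub
open Pool.Agent.Lib.helper1

open Pool.Agent.H.MP_051ecf_co.A in
theorem result : ∃ (n : ℕ) (K : Finset (Finset (Fin n))),
    (∅ ∈ K ∧ ∀ σ ∈ K, ∀ τ ⊆ σ, τ ∈ K) ∧
    Nonempty (↥{x : Fin n → ℝ | (∀ i, 0 ≤ x i) ∧ ∑ i, x i = 1 ∧ ∃ σ ∈ K, ∀ i, i ∉ σ → x i = 0} ≃ₜ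
      ↥(Metric.closedBall (0 : EuclideanSpace ℝ (Fin 3)) 1)) ∧
    (∀ (k : Type) [Field k], ∀ σ ∈ K, σ.card < 2 →
      Hom.Acyc k fun τ => τ ∪ σ ∈ K ∧ τ ∩ σ = ∅) ∧
    ¬ ∃ D : Finset (Finset (Fin n) × Finset (Fin n)),
      (∀ p ∈ D, p.1 ⊆ p.2 ∧ p.2 ∈ K ∧ p.2.card = p.1.card + 2) ∧
      (∀ σ ∈ K, ∃! p, p ∈ D ∧ p.1 ⊆ σ ∧ σ ⊆ p.2) ∧
      ∀ p ∈ D, ∀ τ ⊆ p.1, ∃ q ∈ D, q.1 = τ := by
  refine ⟨9, Mask.cx 9 fac, ⟨Mask.mem_cx.2 ⟨53, by decide, empty_subset _⟩, ?_⟩, ?_, ?_,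
    fun ⟨D, a, b, c⟩ => none D a b c⟩
  · intro σ hσ τ s
    obtain ⟨m, a, b⟩ := Mask.mem_cx.1 hσ
    exact Mask.mem_cx.2 ⟨m, a, s.trans b⟩
  · rw [show {x : Fin 9 → ℝ | (∀ i, 0 ≤ x i) ∧ ∑ i, x i = 1 ∧ ∃ σ ∈ Mask.cx 9 fac,
      ∀ i, i ∉ σ → x i = 0} = Flip.Geo (Mask.Cx 9 fac) by simp only [Mask.mem_cx, Flip.Geo]]
    exact Mask.run_ball 3 323 ![0, 1, 6, 8] (by decide) (by decide +kernel) _ _ h1
  · intro k _ σ _ h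
    rcases card_le_one_iff_subset_singleton.1 (Nat.lt_succ_iff.1 h) with ⟨v, e⟩
    rcases subset_singleton_iff.1 e with rfl | rfl
    · simpa [Mask.mem_cx] using Hom.ok_acyc (k := k) _ _ h2.1
    · have := Hom.ok_acyc (k := k) _ _ (h2.2 v)
      rw [Hom.cx_lk] at this
      simpa [Mask.mem_cx, ← disjoint_iff_inter_eq_empty] using this

end Pool.Agent.Results.MP_051ecf_co.NoSub
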